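import Pool.Agent.Q108.Nil.Base

set_option autoImplicit false

/-! # MP_b55e4c_al: matrix rings over periodic rings need not be `π`-UU -/

namespace Pool.Agent.Results.MP_b55e4c_al.NotPiUU

/-- A ring is periodic if for every `x` there are integers `m > k ≥ 1` with `x^m = x^k`. -/
def Periodic (R : Type) [Ring R] : Prop :=
  ∀ x : R, ∃ m k : ℕ, 1 ≤ k ∧ k < m ∧ x ^ m = x ^ k

/-- A ring is `π`-UU if every unit `u` has a power `u^i`, `i ≥ 1`, such that `u^i - 1` is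
nilpotent. -/
def PiUU (R : Type) [Ring R] : Prop :=
  ∀ u : Rˣ, ∃ i : ℕ, 1 ≤ i ∧ IsNilpotent ((u : R) ^ i - 1)

/-- It is not true that the matrix rings over a periodic ring are `π`-UU: there are a periodic ring
`R` and an invertible `3 × 3` matrix over `R` no power `u^i`, `i ≥ 1`, of which is unipotent. -/
theorem result :
    (¬ ∀ (R : Type) [Ring R], Periodic R → ∀ n : ℕ, 1 ≤ n → PiUU (Matrix (Fin n) (Fin n) R)) ∧
    ∃ (R : Type) (_ : Ring R), Periodic R ∧ ∃ u : (Matrix (Fin 3) (Fin 3) R)ˣ, ∀ i : ℕ, 1 ≤ i →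
      ¬ IsNilpotent ((u : Matrix (Fin 3) (Fin 3) R) ^ i - 1) := by
  obtain ⟨R, _, _, D, hD, hloc, hper, M, hM, hnil⟩ := Pool.Agent.Q108.Nil.main
  have hP : Periodic R := by
    intro x
    obtain ⟨m, k, hk, hkm, h⟩ := hper x
    exact ⟨m, k, hk, hkm, h⟩
  obtain ⟨u, hu⟩ := Pool.Agent.Q108.Nil.isUnit_one_add D hD hM
  have hA : ∀ i : ℕ, 1 ≤ i → ¬ IsNilpotent ((u : Matrix (Fin 3) (Fin 3) R) ^ i - 1) := by
    intro i hi h
    rw [hu] at h
    exact hnil (Pool.Agent.Q108.Nil.nilpotent_of_unipotent D hD hM (by omega) h)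
  refine ⟨fun h => ?_, R, inferInstance, hP, u, hA⟩
  obtain ⟨i, hi, he⟩ := h R hP 3 (by norm_num) u
  exact hA i hi he

end Pool.Agent.Results.MP_b55e4c_al.NotPiUU
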